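import Pool.Agent.W15.GK.Lf2a

/-!
GK-LF2: the freeness lemma (closed alternating words are small in expectation).
-/

set_option linter.unusedSectionVars false
set_option linter.unusedVariables false
set_option linter.unnecessarySimpa false

namespace Pool.Agent.W15.GKLf2

open MeasureTheory Pool.Agent.W792.GK
open scoped Matrix.Norms.Frobenius

theorem fro_add_le {m : Type} [Fintype m] (A B : Matrix m m ℂ) :
    fro (A + B) ≤ 2 * fro A + 2 * fro B := by
  rw [fro_eq, fro_eq, fro_eq]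
  have h := norm_add_le A B
  have h0 := norm_nonneg (A + B)
  nlinarith [sq_nonneg (‖A‖ - ‖B‖), norm_nonneg A, norm_nonneg B]

theorem fro_sum_le {m ι : Type} [Fintype m] (s : Finset ι) (A : ι → Matrix m m ℂ) :
    fro (∑ i ∈ s, A i) ≤ (s.card : ℝ) * ∑ i ∈ s, fro (A i) := by
  simp only [fro_eq]
  calc ‖∑ i ∈ s, A i‖ ^ 2 ≤ (∑ i ∈ s, ‖A i‖) ^ 2 :=
        pow_le_pow_left₀ (norm_nonneg _) (norm_sum_le _ _) 2
    _ ≤ (s.card : ℝ) * ∑ i ∈ s, ‖A i‖ ^ 2 := sq_sum_le_card_mul_sum_sq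

section vanish

variable {Ω : Type} [MeasurableSpace Ω] {J : Type} [Fintype J] [DecidableEq J]
  (μ : Measure Ω) [IsProbabilityMeasure μ] {Q : Type} [Fintype Q] [DecidableEq Q]

theorem vanM (i : J) (g : Ω → Matrix Q Q ℂ) (hg : BMM g) (h0 : ∀ x y, ∫ w, g w x y ∂μ = 0)
    (A C : (J → Ω) → Matrix Q Q ℂ) (hA : BMM A) (hC : BMM C)
    (iA : ∀ ω a, A (Function.update ω i a) = A ω) (iC : ∀ ω a, C (Function.update ω i a) = C ω)
    (Ψ : (J → Ω) → ℂ) (hΨ : BM Ψ) (iΨ : ∀ ω a, Ψ (Function.update ω i a) = Ψ ω) (x y : Q) :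
    ∫ ω, (A ω * g (ω i) * C ω) x y * Ψ ω ∂(Measure.pi fun _ : J => μ) = 0 := by
  have e : ∀ ω : J → Ω, (A ω * g (ω i) * C ω) x y * Ψ ω
      = ∑ v, ∑ u, g (ω i) u v * (A ω x u * C ω v y * Ψ ω) := by
    intro ω
    simp only [Matrix.mul_apply, Finset.sum_mul]
    refine Finset.sum_congr rfl fun v _ => Finset.sum_congr rfl fun u _ => ?_
    ring
  have hgi : ∀ u v, BM (fun ω : J → Ω => g (ω i) u v) := by
    intro u v
    obtain ⟨hm, C, hC, hb⟩ := hg u v
    exact ⟨hm.comp (measurable_pi_apply i), C, hC, fun w => hb _⟩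
  have hb : ∀ u v, BM (fun ω : J → Ω => A ω x u * C ω v y * Ψ ω) := fun u v =>
    ((hA x u).mul (hC v y)).mul hΨ
  rw [integral_congr_ae (Filter.Eventually.of_forall e)]
  rw [integral_finsetSum]
  · refine Finset.sum_eq_zero fun v _ => ?_
    rw [integral_finsetSum]
    · refine Finset.sum_eq_zero fun u _ => ?_
      refine van μ i (fun w => g w u v) (hg u v) (h0 u v) _ (hb u v) ?_
      intro ω a
      simp only [iA, iC, iΨ]
    · exact fun u _ => ((hgi u v).mul (hb u v)).integrable _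
  · exact fun v _ => (BM.sum Finset.univ fun u _ => (hgi u v).mul (hb u v)).integrable _

theorem vanM' (i : J) (g : Ω → Matrix Q Q ℂ) (hg : BMM g) (h0 : ∀ x y, ∫ w, g w x y ∂μ = 0)
    (A C : (J → Ω) → Matrix Q Q ℂ) (hA : BMM A) (hC : BMM C)
    (iA : ∀ ω a, A (Function.update ω i a) = A ω) (iC : ∀ ω a, C (Function.update ω i a) = C ω)
    (Ψ : (J → Ω) → ℂ) (hΨ : BM Ψ) (iΨ : ∀ ω a, Ψ (Function.update ω i a) = Ψ ω) (x y : Q) :
    ∫ ω, Ψ ω * (starRingEnd ℂ) ((A ω * g (ω i) * C ω) x y) ∂(Measure.pi fun _ : J => μ)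
      = 0 := by
  have h := vanM μ i g hg h0 A C hA hC iA iC (fun ω => (starRingEnd ℂ) (Ψ ω)) hΨ.conj
    (fun ω a => by rw [iΨ]) x y
  have h2 : ∀ ω : J → Ω, Ψ ω * (starRingEnd ℂ) ((A ω * g (ω i) * C ω) x y)
      = (starRingEnd ℂ) ((A ω * g (ω i) * C ω) x y * (starRingEnd ℂ) (Ψ ω)) := by
    intro ω
    rw [map_mul, Complex.conj_conj, mul_comm]
  rw [integral_congr_ae (Filter.Eventually.of_forall h2), integral_conj, h, map_zero]

end vanish

section second

variable {Ω : Type} [MeasurableSpace Ω] {J : Type} [Fintype J] [DecidableEq J]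
  (μ : Measure Ω) [IsProbabilityMeasure μ]

theorem sum_swap (a : J → J → ℝ) :
    ∑ j, ∑ j' ∈ Finset.univ.erase j, a j' j = ∑ j, ∑ j' ∈ Finset.univ.erase j, a j j' := by
  refine Finset.sum_comm' ?_
  intro x y
  simp [ne_comm]

/-- Scalar second moment bound. -/
theorem sm_scalar (F : J → Ω → ℂ) (G H : J → J → Ω → ℂ) (hF : ∀ j, BM (F j))
    (hG : ∀ j j', BM (G j j')) (hH : ∀ j j', BM (H j j'))
    (hd : ∀ j j' ω, F j ω = G j j' ω + H j j' ω)
    (v1 : ∀ j j', j ≠ j' → ∫ ω, G j j' ω * (starRingEnd ℂ) (F j' ω) ∂μ = 0)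
    (v2 : ∀ j j', j ≠ j' → ∫ ω, H j j' ω * (starRingEnd ℂ) (G j' j ω) ∂μ = 0) :
    ∫ ω, ‖∑ j, F j ω‖ ^ 2 ∂μ ≤ ∑ j, ∫ ω, ‖F j ω‖ ^ 2 ∂μ
      + ∑ j, ∑ j' ∈ Finset.univ.erase j, ∫ ω, ‖H j j' ω‖ ^ 2 ∂μ := by
  have hS : BM (fun ω => ∑ j, F j ω) := BM.sum _ fun j _ => hF j
  -- complex identity
  have e1 : ((∫ ω, ‖∑ j, F j ω‖ ^ 2 ∂μ : ℝ) : ℂ)
      = ∑ j, ∑ j', ∫ ω, F j ω * (starRingEnd ℂ) (F j' ω) ∂μ := by
    rw [← integral_complex_ofReal]
    have : ∀ ω, ((‖∑ j, F j ω‖ ^ 2 : ℝ) : ℂ) = ∑ j, ∑ j', F j ω * (starRingEnd ℂ) (F j' ω) := by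
      intro ω
      rw [← Complex.normSq_eq_norm_sq, ← Complex.mul_conj, map_sum, Finset.sum_mul_sum]
    rw [integral_congr_ae (Filter.Eventually.of_forall this)]
    rw [integral_finsetSum]
    · refine Finset.sum_congr rfl fun j _ => ?_
      rw [integral_finsetSum]
      exact fun j' _ => ((hF j).mul (hF j').conj).integrable _
    · exact fun j _ => (BM.sum Finset.univ fun j' _ => (hF j).mul (hF j').conj).integrable _
  have e2 : ∀ j j', j ≠ j' → ∫ ω, F j ω * (starRingEnd ℂ) (F j' ω) ∂μ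
      = ∫ ω, H j j' ω * (starRingEnd ℂ) (H j' j ω) ∂μ := by
    intro j j' hne
    have hsplit : ∀ ω, F j ω * (starRingEnd ℂ) (F j' ω)
        = (G j j' ω * (starRingEnd ℂ) (F j' ω) + H j j' ω * (starRingEnd ℂ) (G j' j ω))
          + H j j' ω * (starRingEnd ℂ) (H j' j ω) := by
      intro ω
      have h1 := hd j j' ω
      have h2 := hd j' j ω
      calc F j ω * (starRingEnd ℂ) (F j' ω)
          = G j j' ω * (starRingEnd ℂ) (F j' ω) + H j j' ω * (starRingEnd ℂ) (F j' ω) := by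
            rw [← add_mul, ← h1]
        _ = G j j' ω * (starRingEnd ℂ) (F j' ω)
              + H j j' ω * (starRingEnd ℂ) (G j' j ω + H j' j ω) := by rw [← h2]
        _ = _ := by rw [map_add]; ring
    rw [integral_congr_ae (Filter.Eventually.of_forall hsplit)]
    rw [integral_add, integral_add, v1 j j' hne, v2 j j' hne]
    · simp
    · exact ((hG j j').mul (hF j').conj).integrable _
    · exact ((hH j j').mul (hG j' j).conj).integrable _
    · exact (((hG j j').mul (hF j').conj).add ((hH j j').mul (hG j' j).conj)).integrable _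
    · exact ((hH j j').mul (hH j' j).conj).integrable _
  have e3 : ∀ j j', j ≠ j' → (∫ ω, F j ω * (starRingEnd ℂ) (F j' ω) ∂μ).re
      ≤ ((∫ ω, ‖H j j' ω‖ ^ 2 ∂μ) + ∫ ω, ‖H j' j ω‖ ^ 2 ∂μ) / 2 := by
    intro j j' hne
    rw [e2 j j' hne]
    calc (∫ ω, H j j' ω * (starRingEnd ℂ) (H j' j ω) ∂μ).re
        ≤ ‖∫ ω, H j j' ω * (starRingEnd ℂ) (H j' j ω) ∂μ‖ := Complex.re_le_norm _
      _ ≤ ∫ ω, ‖H j j' ω * (starRingEnd ℂ) (H j' j ω)‖ ∂μ := norm_integral_le_integral_norm _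
      _ ≤ ∫ ω, (‖H j j' ω‖ ^ 2 + ‖H j' j ω‖ ^ 2) / 2 ∂μ := by
          refine integral_mono (((hH j j').mul (hH j' j).conj).norm_integrable _)
            ((((hH j j').norm_sq_integrable μ).add ((hH j' j).norm_sq_integrable μ)).div_const 2)
            fun ω => ?_
          simp only [norm_mul, RCLike.norm_conj]
          nlinarith [sq_nonneg (‖H j j' ω‖ - ‖H j' j ω‖)]
      _ = _ := by
          rw [integral_div, integral_add ((hH j j').norm_sq_integrable μ)
            ((hH j' j).norm_sq_integrable μ)]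
  have e4 : ∀ j, (∫ ω, F j ω * (starRingEnd ℂ) (F j ω) ∂μ).re = ∫ ω, ‖F j ω‖ ^ 2 ∂μ := by
    intro j
    have : ∀ ω, F j ω * (starRingEnd ℂ) (F j ω) = ((‖F j ω‖ ^ 2 : ℝ) : ℂ) := by
      intro ω
      rw [Complex.mul_conj, Complex.normSq_eq_norm_sq]
    rw [integral_congr_ae (Filter.Eventually.of_forall this), integral_complex_ofReal,
      Complex.ofReal_re]
  have e5 : ∫ ω, ‖∑ j, F j ω‖ ^ 2 ∂μ
      = ∑ j, ∑ j', (∫ ω, F j ω * (starRingEnd ℂ) (F j' ω) ∂μ).re := by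
    have := congrArg Complex.re e1
    rw [Complex.ofReal_re] at this
    rw [this]
    simp only [Complex.re_sum]
  rw [e5]
  have e6 : ∀ j, ∑ j', (∫ ω, F j ω * (starRingEnd ℂ) (F j' ω) ∂μ).re
      ≤ ∫ ω, ‖F j ω‖ ^ 2 ∂μ + ∑ j' ∈ Finset.univ.erase j,
        ((∫ ω, ‖H j j' ω‖ ^ 2 ∂μ) + ∫ ω, ‖H j' j ω‖ ^ 2 ∂μ) / 2 := by
    intro j
    rw [← Finset.add_sum_erase Finset.univ _ (Finset.mem_univ j)]
    refine add_le_add (e4 j).le (Finset.sum_le_sum fun j' hj' => e3 j j' ?_)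
    exact (Finset.ne_of_mem_erase hj').symm
  refine (Finset.sum_le_sum fun j _ => e6 j).trans ?_
  rw [Finset.sum_add_distrib]
  refine add_le_add le_rfl ?_
  have e7 : ∑ j, ∑ j' ∈ Finset.univ.erase j,
        ((∫ ω, ‖H j j' ω‖ ^ 2 ∂μ) + ∫ ω, ‖H j' j ω‖ ^ 2 ∂μ) / 2
      = (∑ j, ∑ j' ∈ Finset.univ.erase j, (∫ ω, ‖H j j' ω‖ ^ 2 ∂μ)
        + ∑ j, ∑ j' ∈ Finset.univ.erase j, (∫ ω, ‖H j' j ω‖ ^ 2 ∂μ)) / 2 := by
    rw [← Finset.sum_add_distrib, Finset.sum_div]
    refine Finset.sum_congr rfl fun j _ => ?_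
    rw [← Finset.sum_add_distrib, Finset.sum_div]
  rw [e7, sum_swap (fun j j' => ∫ ω, ‖H j j' ω‖ ^ 2 ∂μ)]
  linarith

variable {Q : Type} [Fintype Q] [DecidableEq Q]

theorem int_fro (F : Ω → Matrix Q Q ℂ) (hF : BMM F) :
    ∫ ω, fro (F ω) ∂μ = ∑ x, ∑ y, ∫ ω, ‖F ω x y‖ ^ 2 ∂μ := by
  unfold fro
  rw [integral_finsetSum]
  · refine Finset.sum_congr rfl fun x _ => ?_
    rw [integral_finsetSum]
    exact fun y _ => (hF x y).norm_sq_integrable μ
  · exact fun x _ => integrable_finsetSum _ fun y _ => (hF x y).norm_sq_integrable μ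

/-- Matrix second moment bound. -/
theorem sm_mat (F : J → Ω → Matrix Q Q ℂ) (G H : J → J → Ω → Matrix Q Q ℂ)
    (hF : ∀ j, BMM (F j)) (hG : ∀ j j', BMM (G j j')) (hH : ∀ j j', BMM (H j j'))
    (hd : ∀ j j' ω, F j ω = G j j' ω + H j j' ω)
    (v1 : ∀ j j', j ≠ j' → ∀ x y, ∫ ω, G j j' ω x y * (starRingEnd ℂ) (F j' ω x y) ∂μ = 0)
    (v2 : ∀ j j', j ≠ j' → ∀ x y, ∫ ω, H j j' ω x y * (starRingEnd ℂ) (G j' j ω x y) ∂μ = 0) :
    ∫ ω, fro (∑ j, F j ω) ∂μ ≤ ∑ j, ∫ ω, fro (F j ω) ∂μ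
      + ∑ j, ∑ j' ∈ Finset.univ.erase j, ∫ ω, fro (H j j' ω) ∂μ := by
  rw [int_fro μ _ (BMM.sum Finset.univ fun j _ => hF j)]
  have h1 : ∑ j, ∫ ω, fro (F j ω) ∂μ = ∑ x, ∑ y, ∑ j, ∫ ω, ‖F j ω x y‖ ^ 2 ∂μ := by
    simp only [int_fro μ _ (hF _)]
    rw [Finset.sum_comm]
    refine Finset.sum_congr rfl fun x _ => ?_
    rw [Finset.sum_comm]
  have h2 : ∑ j, ∑ j' ∈ Finset.univ.erase j, ∫ ω, fro (H j j' ω) ∂μ
      = ∑ x, ∑ y, ∑ j, ∑ j' ∈ Finset.univ.erase j, ∫ ω, ‖H j j' ω x y‖ ^ 2 ∂μ := by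
    simp only [int_fro μ _ (hH _ _)]
    have : ∀ j, ∑ j' ∈ Finset.univ.erase j, ∑ x, ∑ y, ∫ ω, ‖H j j' ω x y‖ ^ 2 ∂μ
        = ∑ x, ∑ y, ∑ j' ∈ Finset.univ.erase j, ∫ ω, ‖H j j' ω x y‖ ^ 2 ∂μ := by
      intro j
      rw [Finset.sum_comm]
      refine Finset.sum_congr rfl fun x _ => ?_
      rw [Finset.sum_comm]
    simp only [this]
    rw [Finset.sum_comm]
    refine Finset.sum_congr rfl fun x _ => ?_
    rw [Finset.sum_comm]
  rw [h1, h2, ← Finset.sum_add_distrib]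
  refine Finset.sum_le_sum fun x _ => ?_
  rw [← Finset.sum_add_distrib]
  refine Finset.sum_le_sum fun y _ => ?_
  have := sm_scalar μ (fun j ω => F j ω x y) (fun j j' ω => G j j' ω x y)
    (fun j j' ω => H j j' ω x y) (fun j => hF j x y) (fun j j' => hG j j' x y)
    (fun j j' => hH j j' x y) (fun j j' ω => by rw [hd j j' ω]; rfl)
    (fun j j' h => v1 j j' h x y) (fun j j' h => v2 j j' h x y)
  simpa only [Matrix.sum_apply] using this

end second

/-! ### The induction -/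

section main

variable {Q J : Type} [Fintype Q] [DecidableEq Q] [Fintype J] [DecidableEq J]

theorem blk_succ (T : Matrix (Q × J) (Q × J) ℂ) (X : J → Matrix Q Q ℂ) (k : ℕ) (i p : J) :
    blk (Zk T X (k + 1)) i p = ∑ j, blk T i j * X j * blk (Zk T X k) j p := by
  have h : Zk T X (k + 1) = T * Matrix.blockDiagonal X * Zk T X k := by
    unfold Zk
    rw [pow_succ']
    simp only [Matrix.mul_assoc]
  ext x y
  rw [h, Matrix.sum_apply]
  have e1 : blk (T * Matrix.blockDiagonal X * Zk T X k) i p x y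
      = ∑ j, ∑ v, (T * Matrix.blockDiagonal X) (x, i) (v, j) * Zk T X k (v, j) (y, p) := by
    unfold blk
    rw [Matrix.mul_apply, Fintype.sum_prod_type_right]
  rw [e1]
  refine Finset.sum_congr rfl fun j _ => ?_
  rw [Matrix.mul_apply]
  refine Finset.sum_congr rfl fun v _ => ?_
  have e2 : (T * Matrix.blockDiagonal X) (x, i) (v, j) = (blk T i j * X j) x v := by
    rw [Matrix.mul_apply, Matrix.mul_apply, Fintype.sum_prod_type_right]
    rw [Finset.sum_eq_single j]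
    · simp [Matrix.blockDiagonal_apply, blk]
    · intro b _ hb
      simp [Matrix.blockDiagonal_apply, hb]
    · simp
  rw [e2]
  rfl

variable {Ω : Type} [MeasurableSpace Ω]

/-- The random family. -/
def Xo (f : J → Ω → Matrix Q Q ℂ) (ω : J → Ω) : J → Matrix Q Q ℂ := fun j => f j (ω j)

/-- Independent centred contractions. -/
structure Fam (μ : Measure Ω) (f : J → Ω → Matrix Q Q ℂ) : Prop where
  meas : ∀ j x y, Measurable fun w => f j w x y
  bd : ∀ j w, OpB (f j w) 1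
  mean : ∀ j x y, ∫ w, f j w x y ∂μ = 0

theorem opB_zero : OpB (0 : Matrix Q Q ℂ) 1 := by
  intro u
  simp only [Matrix.zero_mulVec, Pi.zero_apply, norm_zero]
  have : 0 ≤ ∑ i, ‖u i‖ ^ 2 := by positivity
  simpa using this

theorem Fam.kill {μ : Measure Ω} {f : J → Ω → Matrix Q Q ℂ} (h : Fam μ f) (l : J) :
    Fam μ (Function.update f l (fun _ => 0)) := by
  refine ⟨fun j x y => ?_, fun j w => ?_, fun j x y => ?_⟩
  · by_cases hj : j = l
    · subst hj
      simpa using measurable_const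
    · simpa [Function.update_of_ne hj] using h.meas j x y
  · by_cases hj : j = l
    · subst hj
      simpa using opB_zero
    · simpa [Function.update_of_ne hj] using h.bd j w
  · by_cases hj : j = l
    · subst hj
      simp
    · simpa [Function.update_of_ne hj] using h.mean j x y

theorem Fam.one {μ : Measure Ω} {f : J → Ω → Matrix Q Q ℂ} (h : Fam μ f) (j : J) :
    BMM (f j) := fun x y => ⟨h.meas j x y, 1, zero_le_one, fun w => entry_le (h.bd j w) x y⟩

theorem Fam.bmm {μ : Measure Ω} {f : J → Ω → Matrix Q Q ℂ} (h : Fam μ f) (j : J) :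
    BMM (fun ω : J → Ω => Xo f ω j) := (h.one j).comp (measurable_pi_apply j)

theorem kil_Xo (f : J → Ω → Matrix Q Q ℂ) (l : J) (ω : J → Ω) :
    kil (Xo f ω) l = Xo (Function.update f l (fun _ => 0)) ω := by
  funext j
  by_cases hj : j = l
  · subst hj; simp [kil, Xo]
  · simp [kil, Xo, Function.update_of_ne hj]

theorem kil_upd (f : J → Ω → Matrix Q Q ℂ) (l : J) (ω : J → Ω) (a : Ω) :
    kil (Xo f (Function.update ω l a)) l = kil (Xo f ω) l := by
  funext j
  by_cases hj : j = l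
  · subst hj; simp [kil]
  · simp [kil, Xo, Function.update_of_ne hj]

theorem kil_comm (X : J → Matrix Q Q ℂ) (j l : J) : kil (kil X j) l = kil (kil X l) j := by
  funext i
  by_cases hl : i = l
  · subst hl
    by_cases hj : i = j
    · subst hj; simp [kil]
    · simp [kil, Function.update_of_ne hj]
  · by_cases hj : i = j
    · subst hj; simp [kil, Function.update_of_ne hl]
    · simp [kil, Function.update_of_ne hj, Function.update_of_ne hl]

theorem kil2_upd (f : J → Ω → Matrix Q Q ℂ) (j l : J) (ω : J → Ω) (a : Ω) :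
    kil (kil (Xo f (Function.update ω l a)) j) l = kil (kil (Xo f ω) j) l := by
  rw [kil_comm, kil_upd, kil_comm]

theorem kil2_upd' (f : J → Ω → Matrix Q Q ℂ) (j l : J) (ω : J → Ω) (a : Ω) :
    kil (kil (Xo f (Function.update ω j a)) j) l = kil (kil (Xo f ω) j) l := by
  rw [kil_upd]

theorem Fam.bmk {μ : Measure Ω} {f : J → Ω → Matrix Q Q ℂ} (h : Fam μ f) (l j : J) :
    BMM (fun ω : J → Ω => kil (Xo f ω) l j) := by
  simp only [kil_Xo]
  exact (h.kill l).bmm j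

theorem Fam.bmkk {μ : Measure Ω} {f : J → Ω → Matrix Q Q ℂ} (h : Fam μ f) (l l' j : J) :
    BMM (fun ω : J → Ω => kil (kil (Xo f ω) l) l' j) := by
  simp only [kil_Xo]
  exact ((h.kill l).kill l').bmm j

theorem fro3 {c : ℝ} {T' X' B : Matrix Q Q ℂ} (hT : fro T' ≤ c) (hc : 0 ≤ c) (hX : OpB X' 1) :
    fro (T' * X' * B) ≤ c * Fintype.card Q * fro B := by
  calc fro (T' * X' * B) ≤ fro (T' * X') * fro B := fro_mul_le _ _
    _ ≤ (fro T' * fro X') * fro B := by
        gcongr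
        · exact fro_nonneg _
        · exact fro_mul_le _ _
    _ ≤ (c * Fintype.card Q) * fro B := by
        have h1 := fro_contr hX
        have h2 := fro_nonneg T'
        have h3 := fro_nonneg X'
        have h4 := fro_nonneg B
        gcongr

/-- The first term. -/
theorem W1_bound (μ : Measure Ω) [IsProbabilityMeasure μ] (k : ℕ) (C : ℝ) (hC : 0 ≤ C)
    (f : J → Ω → Matrix Q Q ℂ)
    (hf : Fam μ f) (T : Matrix (Q × J) (Q × J) ℂ) (ε : ℝ)
    (hε : ∀ i j x y, ‖T (x, i) (y, j)‖ ≤ ε) (p : J)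
    (hd2 : ∀ ω : J → Ω, ∑ j, fro (blk (Zk T (kil (Xo f ω) j) k) j p) ≤ C)
    (hd3 : ∀ ω : J → Ω, ∑ j, ∑ j' ∈ Finset.univ.erase j,
      fro (blk (Zk T (kil (Xo f ω) j) k) j p
        - blk (Zk T (kil (kil (Xo f ω) j) j') k) j p) ≤ C) :
    ∫ ω, fro (∑ j, blk T p j * Xo f ω j * blk (Zk T (kil (Xo f ω) j) k) j p)
      ∂(Measure.pi fun _ : J => μ) ≤ 2 * (Fintype.card Q : ℝ) ^ 3 * C * ε ^ 2 := by
  set q : ℝ := (Fintype.card Q : ℝ) with hq
  have hq0 : 0 ≤ q := by positivity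
  have hT : ∀ j, fro (blk T p j) ≤ q ^ 2 * ε ^ 2 := fun j => fro_small hε p j
  have hb : ∀ j, BMM (fun ω : J → Ω => blk (Zk T (kil (Xo f ω) j) k) j p) := fun j =>
    (BMM.Zk T (fun i => hf.bmk j i) k).blk j p
  have hbb : ∀ j j', BMM (fun ω : J → Ω => blk (Zk T (kil (kil (Xo f ω) j) j') k) j p) :=
    fun j j' => (BMM.Zk T (fun i => hf.bmkk j j' i) k).blk j p
  have hF : ∀ j, BMM (fun ω : J → Ω =>
      blk T p j * Xo f ω j * blk (Zk T (kil (Xo f ω) j) k) j p) := fun j =>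
    ((BMM.const _).mul (hf.bmm j)).mul (hb j)
  have hG : ∀ j j', BMM (fun ω : J → Ω =>
      blk T p j * Xo f ω j * blk (Zk T (kil (kil (Xo f ω) j) j') k) j p) := fun j j' =>
    ((BMM.const _).mul (hf.bmm j)).mul (hbb j j')
  have hH : ∀ j j', BMM (fun ω : J → Ω =>
      blk T p j * Xo f ω j * (blk (Zk T (kil (Xo f ω) j) k) j p
        - blk (Zk T (kil (kil (Xo f ω) j) j') k) j p)) := fun j j' =>
    ((BMM.const _).mul (hf.bmm j)).mul ((hb j).sub (hbb j j'))
  have main := sm_mat (Measure.pi fun _ : J => μ)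
    (fun j ω => blk T p j * Xo f ω j * blk (Zk T (kil (Xo f ω) j) k) j p)
    (fun j j' ω => blk T p j * Xo f ω j * blk (Zk T (kil (kil (Xo f ω) j) j') k) j p)
    (fun j j' ω => blk T p j * Xo f ω j * (blk (Zk T (kil (Xo f ω) j) k) j p
        - blk (Zk T (kil (kil (Xo f ω) j) j') k) j p))
    hF hG hH (fun j j' ω => by rw [← Matrix.mul_add, add_sub_cancel]) ?_ ?_
  · refine main.trans ?_
    have b1 : ∑ j, ∫ ω, fro (blk T p j * Xo f ω j * blk (Zk T (kil (Xo f ω) j) k) j p)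
        ∂(Measure.pi fun _ : J => μ) ≤ q ^ 3 * C * ε ^ 2 := by
      rw [← integral_finsetSum _ fun j _ => (hF j).fro_integrable _]
      calc ∫ ω, ∑ j, fro (blk T p j * Xo f ω j * blk (Zk T (kil (Xo f ω) j) k) j p)
            ∂(Measure.pi fun _ : J => μ)
          ≤ ∫ _ω : J → Ω, q ^ 3 * C * ε ^ 2 ∂(Measure.pi fun _ : J => μ) := by
            refine integral_mono (integrable_finsetSum _ fun j _ => (hF j).fro_integrable _)
              (integrable_const _) fun ω => ?_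
            calc ∑ j, fro (blk T p j * Xo f ω j * blk (Zk T (kil (Xo f ω) j) k) j p)
                ≤ ∑ j, (q ^ 2 * ε ^ 2) * q * fro (blk (Zk T (kil (Xo f ω) j) k) j p) :=
                  Finset.sum_le_sum fun j _ => fro3 (hT j) (by positivity) (hf.bd j _)
              _ = (q ^ 2 * ε ^ 2) * q * ∑ j, fro (blk (Zk T (kil (Xo f ω) j) k) j p) := by
                  rw [Finset.mul_sum]
              _ ≤ (q ^ 2 * ε ^ 2) * q * C := by
                  exact mul_le_mul_of_nonneg_left (hd2 ω) (by positivity)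
              _ = q ^ 3 * C * ε ^ 2 := by ring
        _ = q ^ 3 * C * ε ^ 2 := by simp
    have b2 : ∑ j, ∑ j' ∈ Finset.univ.erase j, ∫ ω, fro (blk T p j * Xo f ω j *
        (blk (Zk T (kil (Xo f ω) j) k) j p
        - blk (Zk T (kil (kil (Xo f ω) j) j') k) j p))
        ∂(Measure.pi fun _ : J => μ) ≤ q ^ 3 * C * ε ^ 2 := by
      have : ∀ j, ∑ j' ∈ Finset.univ.erase j, ∫ ω, fro (blk T p j * Xo f ω j *
          (blk (Zk T (kil (Xo f ω) j) k) j p
          - blk (Zk T (kil (kil (Xo f ω) j) j') k) j p)) ∂(Measure.pi fun _ : J => μ)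
          = ∫ ω, ∑ j' ∈ Finset.univ.erase j, fro (blk T p j * Xo f ω j *
          (blk (Zk T (kil (Xo f ω) j) k) j p
          - blk (Zk T (kil (kil (Xo f ω) j) j') k) j p)) ∂(Measure.pi fun _ : J => μ) := by
        intro j
        rw [integral_finsetSum _ fun j' _ => (hH j j').fro_integrable _]
      simp only [this]
      rw [← integral_finsetSum _ fun j _ => integrable_finsetSum _ fun j' _ =>
        (hH j j').fro_integrable _]
      calc ∫ ω, ∑ j, ∑ j' ∈ Finset.univ.erase j, fro (blk T p j * Xo f ω j *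
            (blk (Zk T (kil (Xo f ω) j) k) j p
            - blk (Zk T (kil (kil (Xo f ω) j) j') k) j p)) ∂(Measure.pi fun _ : J => μ)
          ≤ ∫ _ω : J → Ω, q ^ 3 * C * ε ^ 2 ∂(Measure.pi fun _ : J => μ) := by
            refine integral_mono (integrable_finsetSum _ fun j _ => integrable_finsetSum _
              fun j' _ => (hH j j').fro_integrable _)
              (integrable_const _) fun ω => ?_
            calc ∑ j, ∑ j' ∈ Finset.univ.erase j, fro (blk T p j * Xo f ω j *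
                  (blk (Zk T (kil (Xo f ω) j) k) j p
                  - blk (Zk T (kil (kil (Xo f ω) j) j') k) j p))
                ≤ ∑ j, ∑ j' ∈ Finset.univ.erase j, (q ^ 2 * ε ^ 2) * q *
                    fro (blk (Zk T (kil (Xo f ω) j) k) j p
                      - blk (Zk T (kil (kil (Xo f ω) j) j') k) j p) :=
                  Finset.sum_le_sum fun j _ => Finset.sum_le_sum fun j' _ =>
                    fro3 (hT j) (by positivity) (hf.bd j _)
              _ = (q ^ 2 * ε ^ 2) * q * ∑ j, ∑ j' ∈ Finset.univ.erase j,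
                    fro (blk (Zk T (kil (Xo f ω) j) k) j p
                      - blk (Zk T (kil (kil (Xo f ω) j) j') k) j p) := by
                  simp only [Finset.mul_sum]
              _ ≤ (q ^ 2 * ε ^ 2) * q * C := by
                  exact mul_le_mul_of_nonneg_left (hd3 ω) (by positivity)
              _ = q ^ 3 * C * ε ^ 2 := by ring
        _ = q ^ 3 * C * ε ^ 2 := by simp
    calc _ ≤ q ^ 3 * C * ε ^ 2 + q ^ 3 * C * ε ^ 2 := add_le_add b1 b2
      _ = 2 * q ^ 3 * C * ε ^ 2 := by ring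
  · -- v1 : integrate out j'
    intro j j' hne x y
    refine vanM' μ j' (f j') (hf.one j') (hf.mean j') (fun _ => blk T p j')
      (fun ω => blk (Zk T (kil (Xo f ω) j') k) j' p) (BMM.const _) (hb j')
      (fun _ _ => rfl) (fun ω a => by rw [kil_upd])
      (fun ω => (blk T p j * Xo f ω j * blk (Zk T (kil (kil (Xo f ω) j) j') k) j p) x y)
      (hG j j' x y) (fun ω a => ?_) x y
    rw [kil2_upd]
    simp only [Xo, Function.update_of_ne hne]
  · -- v2 : integrate out j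
    intro j j' hne x y
    refine vanM μ j (f j) (hf.one j) (hf.mean j) (fun _ => blk T p j)
      (fun ω => blk (Zk T (kil (Xo f ω) j) k) j p
        - blk (Zk T (kil (kil (Xo f ω) j) j') k) j p) (BMM.const _) ((hb j).sub (hbb j j'))
      (fun _ _ => rfl) (fun ω a => by rw [kil2_upd', kil_upd])
      (fun ω => (starRingEnd ℂ)
        ((blk T p j' * Xo f ω j' * blk (Zk T (kil (kil (Xo f ω) j') j) k) j' p) x y))
      (hG j' j x y).conj (fun ω a => ?_) x y
    rw [kil2_upd]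
    simp only [Xo, Function.update_of_ne hne.symm]

/-- The second terms, pointwise. -/
theorem W2_pt (C : ℝ) (X : J → Matrix Q Q ℂ) (hX : ∀ j, OpB (X j) 1)
    (T : Matrix (Q × J) (Q × J) ℂ) (p : J) (A B : J → Matrix Q Q ℂ)
    (hB : ∑ j, fro (B j) ≤ C) :
    fro (∑ j, blk T p j * X j * (A j * X j * B j)) ≤
      (Fintype.card Q : ℝ) ^ 2 * C * ∑ j, fro (blk T p j) * fro (A j) := by
  set q : ℝ := (Fintype.card Q : ℝ) with hq
  have hq0 : 0 ≤ q := by positivity
  have hX2 : ∀ j, ‖X j‖ * ‖X j‖ ≤ q := by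
    intro j
    have := fro_contr (hX j)
    rw [fro_eq] at this
    nlinarith
  have h1 : ‖∑ j, blk T p j * X j * (A j * X j * B j)‖
      ≤ q * ∑ j, (‖blk T p j‖ * ‖A j‖) * ‖B j‖ := by
    refine (norm_sum_le _ _).trans ?_
    rw [Finset.mul_sum]
    refine Finset.sum_le_sum fun j _ => ?_
    calc ‖blk T p j * X j * (A j * X j * B j)‖
        ≤ ‖blk T p j * X j‖ * ‖A j * X j * B j‖ := Matrix.frobenius_norm_mul _ _
      _ ≤ (‖blk T p j‖ * ‖X j‖) * ((‖A j‖ * ‖X j‖) * ‖B j‖) := by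
          gcongr
          · exact Matrix.frobenius_norm_mul _ _
          · refine (Matrix.frobenius_norm_mul _ _).trans ?_
            gcongr
            exact Matrix.frobenius_norm_mul _ _
      _ = (‖X j‖ * ‖X j‖) * ((‖blk T p j‖ * ‖A j‖) * ‖B j‖) := by ring
      _ ≤ q * ((‖blk T p j‖ * ‖A j‖) * ‖B j‖) := by
          exact mul_le_mul_of_nonneg_right (hX2 j) (by positivity)
  have h2 : (∑ j, (‖blk T p j‖ * ‖A j‖) * ‖B j‖) ^ 2
      ≤ (∑ j, (‖blk T p j‖ * ‖A j‖) ^ 2) * ∑ j, ‖B j‖ ^ 2 :=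
    Finset.sum_mul_sq_le_sq_mul_sq _ _ _
  have h3 : ∑ j, ‖B j‖ ^ 2 ≤ C := by simpa only [fro_eq] using hB
  have h4 : ∑ j, (‖blk T p j‖ * ‖A j‖) ^ 2 = ∑ j, fro (blk T p j) * fro (A j) := by
    refine Finset.sum_congr rfl fun j _ => ?_
    rw [fro_eq, fro_eq, mul_pow]
  have h5 : 0 ≤ ∑ j, fro (blk T p j) * fro (A j) :=
    Finset.sum_nonneg fun j _ => mul_nonneg (fro_nonneg _) (fro_nonneg _)
  rw [fro_eq]
  calc ‖∑ j, blk T p j * X j * (A j * X j * B j)‖ ^ 2
      ≤ (q * ∑ j, (‖blk T p j‖ * ‖A j‖) * ‖B j‖) ^ 2 :=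
        pow_le_pow_left₀ (norm_nonneg _) h1 2
    _ = q ^ 2 * (∑ j, (‖blk T p j‖ * ‖A j‖) * ‖B j‖) ^ 2 := by ring
    _ ≤ q ^ 2 * ((∑ j, fro (blk T p j) * fro (A j)) * C) := by
        refine mul_le_mul_of_nonneg_left (h2.trans ?_) (by positivity)
        rw [h4]
        exact mul_le_mul_of_nonneg_left h3 h5
    _ = _ := by ring

/-- The second terms, in expectation. -/
theorem W2_bound (μ : Measure Ω) [IsProbabilityMeasure μ] (i m : ℕ) (C c : ℝ) (hC : 0 ≤ C)
    (hc : 0 ≤ c) (f : J → Ω → Matrix Q Q ℂ)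
    (hf : Fam μ f) (T : Matrix (Q × J) (Q × J) ℂ) (hT1 : OpB T 1) (ε : ℝ) (p : J)
    (hd1 : ∀ ω : J → Ω, ∑ j, fro (blk (Zk T (Xo f ω) m) j p) ≤ C)
    (hi : ∀ j : J, ∫ ω, fro (blk (Zk T (kil (Xo f ω) j) i) j j)
      ∂(Measure.pi fun _ : J => μ) ≤ c * ε ^ 2) :
    ∫ ω, fro (∑ j, blk T p j * Xo f ω j * (blk (Zk T (kil (Xo f ω) j) i) j j * Xo f ω j
        * blk (Zk T (Xo f ω) m) j p))
      ∂(Measure.pi fun _ : J => μ) ≤ (Fintype.card Q : ℝ) ^ 3 * C * c * ε ^ 2 := by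
  set q : ℝ := (Fintype.card Q : ℝ) with hq
  have hq0 : 0 ≤ q := by positivity
  have hA : ∀ j, BMM (fun ω : J → Ω => blk (Zk T (kil (Xo f ω) j) i) j j) := fun j =>
    (BMM.Zk T (fun l => hf.bmk j l) i).blk j j
  have hB : ∀ j, BMM (fun ω : J → Ω => blk (Zk T (Xo f ω) m) j p) := fun j =>
    (BMM.Zk T (fun l => hf.bmm l) m).blk j p
  have hW : BMM (fun ω : J → Ω => ∑ j, blk T p j * Xo f ω j *
      (blk (Zk T (kil (Xo f ω) j) i) j j * Xo f ω j * blk (Zk T (Xo f ω) m) j p)) :=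
    BMM.sum _ fun j _ => ((BMM.const _).mul (hf.bmm j)).mul (((hA j).mul (hf.bmm j)).mul (hB j))
  have hint : ∀ j, Integrable (fun ω : J → Ω => fro (blk T p j)
      * fro (blk (Zk T (kil (Xo f ω) j) i) j j)) (Measure.pi fun _ : J => μ) := fun j =>
    ((hA j).fro_integrable _).const_mul _
  calc ∫ ω, fro (∑ j, blk T p j * Xo f ω j * (blk (Zk T (kil (Xo f ω) j) i) j j * Xo f ω j
        * blk (Zk T (Xo f ω) m) j p)) ∂(Measure.pi fun _ : J => μ)
      ≤ ∫ ω, q ^ 2 * C * ∑ j, fro (blk T p j) * fro (blk (Zk T (kil (Xo f ω) j) i) j j)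
        ∂(Measure.pi fun _ : J => μ) := by
        refine integral_mono (hW.fro_integrable _)
          ((integrable_finsetSum _ fun j _ => hint j).const_mul _) fun ω => ?_
        exact W2_pt C (Xo f ω) (fun j => hf.bd j _) T p _ _ (hd1 ω)
    _ = q ^ 2 * C * ∑ j, fro (blk T p j) * ∫ ω, fro (blk (Zk T (kil (Xo f ω) j) i) j j)
        ∂(Measure.pi fun _ : J => μ) := by
        rw [integral_const_mul, integral_finsetSum _ fun j _ => hint j]
        congr 1
        refine Finset.sum_congr rfl fun j _ => ?_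
        rw [integral_const_mul]
    _ ≤ q ^ 2 * C * ∑ j, fro (blk T p j) * (c * ε ^ 2) := by
        refine mul_le_mul_of_nonneg_left (Finset.sum_le_sum fun j _ =>
          mul_le_mul_of_nonneg_left (hi j) (fro_nonneg _)) (by positivity)
    _ = q ^ 2 * C * (c * ε ^ 2) * ∑ j, fro (blk T p j) := by
        rw [← Finset.sum_mul]; ring
    _ ≤ q ^ 2 * C * (c * ε ^ 2) * q :=
        mul_le_mul_of_nonneg_left (sum_fro_row hT1 p) (by positivity)
    _ = _ := by ring

end main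

/-- The `L²` version. -/
def L2S (Q : Type) [Fintype Q] [DecidableEq Q] (k : ℕ) : Prop := ∃ c : ℝ, 0 ≤ c ∧
    ∀ (J : Type) [Fintype J] [DecidableEq J] (Ω : Type) [MeasurableSpace Ω] (μ : Measure Ω)
      [IsProbabilityMeasure μ] (f : J → Ω → Matrix Q Q ℂ), Fam μ f →
      ∀ T : Matrix (Q × J) (Q × J) ℂ, OpB T 1 → ∀ ε : ℝ, 0 ≤ ε →
      (∀ i j x y, ‖T (x, i) (y, j)‖ ≤ ε) → ∀ p : J,
      ∫ ω, fro (blk (Zk T (Xo f ω) k) p p) ∂(Measure.pi fun _ : J => μ) ≤ c * ε ^ 2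

theorem l2 (H : S_LF1) (Q : Type) [Fintype Q] [DecidableEq Q] (k : ℕ) : L2S Q k := by
  induction k using Nat.strong_induction_on with
  | _ k ih =>
  rcases k with _ | k
  · refine ⟨(Fintype.card Q : ℝ) ^ 2, by positivity, ?_⟩
    intro J _ _ Ω _ μ _ f hf T hT ε hε hTε p
    have : ∀ ω : J → Ω, fro (blk (Zk T (Xo f ω) 0) p p) ≤ (Fintype.card Q : ℝ) ^ 2 * ε ^ 2 := by
      intro ω
      have : Zk T (Xo f ω) 0 = T := by simp [Zk]
      rw [this]
      exact fro_small hTε p p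
    calc ∫ ω, fro (blk (Zk T (Xo f ω) 0) p p) ∂(Measure.pi fun _ : J => μ)
        ≤ ∫ _ω : J → Ω, (Fintype.card Q : ℝ) ^ 2 * ε ^ 2 ∂(Measure.pi fun _ : J => μ) :=
          integral_mono (((BMM.Zk T (fun l => hf.bmm l) 0).blk p p).fro_integrable _)
            (integrable_const _) this
      _ = _ := by simp
  · -- constants
    obtain ⟨C, hC0, hC⟩ := H k Q
    have H1 : ∀ i, ∃ C : ℝ, 0 ≤ C ∧ ∀ (J : Type) [Fintype J] [DecidableEq J]
        (T : Matrix (Q × J) (Q × J) ℂ), OpB T 1 →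
        ∀ X : J → Matrix Q Q ℂ, (∀ j, OpB (X j) 1) → ∀ p : J,
        ∑ j, fro (blk (Zk T X (k - 1 - i)) j p) ≤ C := by
      intro i
      obtain ⟨C, hC0, hC⟩ := H (k - 1 - i) Q
      exact ⟨C, hC0, fun J _ _ T hT X hX p => (hC J T hT X hX p).2.1⟩
    choose D hD0 hD using H1
    have H2 : ∀ i, ∃ c : ℝ, 0 ≤ c ∧ (i < k + 1 →
        ∀ (J : Type) [Fintype J] [DecidableEq J] (Ω : Type) [MeasurableSpace Ω] (μ : Measure Ω)
        [IsProbabilityMeasure μ] (f : J → Ω → Matrix Q Q ℂ), Fam μ f →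
        ∀ T : Matrix (Q × J) (Q × J) ℂ, OpB T 1 → ∀ ε : ℝ, 0 ≤ ε →
        (∀ i j x y, ‖T (x, i) (y, j)‖ ≤ ε) → ∀ p : J,
        ∫ ω, fro (blk (Zk T (Xo f ω) i) p p) ∂(Measure.pi fun _ : J => μ) ≤ c * ε ^ 2) := by
      intro i
      by_cases hi : i < k + 1
      · obtain ⟨c, hc0, hc⟩ := ih i hi
        exact ⟨c, hc0, fun _ => hc⟩
      · exact ⟨0, le_rfl, fun h => absurd h hi⟩
    choose c hc0 hc using H2
    set q : ℝ := (Fintype.card Q : ℝ) with hq
    refine ⟨2 * (2 * q ^ 3 * C) + 2 * (k * ∑ i ∈ Finset.range k, q ^ 3 * D i * c i), ?_, ?_⟩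
    · have : 0 ≤ ∑ i ∈ Finset.range k, q ^ 3 * D i * c i :=
        Finset.sum_nonneg fun i _ => mul_nonneg (mul_nonneg (by positivity) (hD0 i)) (hc0 i)
      positivity
    intro J _ _ Ω _ μ _ f hf T hT ε hε hTε p
    have hX : ∀ (ω : J → Ω) j, OpB (Xo f ω j) 1 := fun ω j => hf.bd j _
    -- decomposition
    have hdec : ∀ ω : J → Ω, blk (Zk T (Xo f ω) (k + 1)) p p
        = (∑ j, blk T p j * Xo f ω j * blk (Zk T (kil (Xo f ω) j) k) j p)
          + ∑ i ∈ Finset.range k, ∑ j, blk T p j * Xo f ω j *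
            (blk (Zk T (kil (Xo f ω) j) i) j j * Xo f ω j
              * blk (Zk T (Xo f ω) (k - 1 - i)) j p) := by
      intro ω
      rw [blk_succ, Finset.sum_comm, ← Finset.sum_add_distrib]
      refine Finset.sum_congr rfl fun j _ => ?_
      rw [(hC J T hT (Xo f ω) (hX ω) p).1 j, Matrix.mul_add, Matrix.mul_sum]
    have hA : ∀ i j, BMM (fun ω : J → Ω => blk (Zk T (kil (Xo f ω) j) i) j j) := fun i j =>
      (BMM.Zk T (fun l => hf.bmk j l) i).blk j j
    have hB : ∀ m j, BMM (fun ω : J → Ω => blk (Zk T (Xo f ω) m) j p) := fun m j =>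
      (BMM.Zk T (fun l => hf.bmm l) m).blk j p
    have hb : ∀ j, BMM (fun ω : J → Ω => blk (Zk T (kil (Xo f ω) j) k) j p) := fun j =>
      (BMM.Zk T (fun l => hf.bmk j l) k).blk j p
    have iW1 : BMM (fun ω : J → Ω =>
        ∑ j, blk T p j * Xo f ω j * blk (Zk T (kil (Xo f ω) j) k) j p) :=
      BMM.sum _ fun j _ => ((BMM.const _).mul (hf.bmm j)).mul (hb j)
    have iW2 : ∀ i, BMM (fun ω : J → Ω => ∑ j, blk T p j * Xo f ω j *
        (blk (Zk T (kil (Xo f ω) j) i) j j * Xo f ω j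
          * blk (Zk T (Xo f ω) (k - 1 - i)) j p)) := fun i =>
      BMM.sum _ fun j _ => ((BMM.const _).mul (hf.bmm j)).mul
        (((hA i j).mul (hf.bmm j)).mul (hB _ j))
    have b1 := W1_bound μ k C hC0 f hf T ε hTε p
      (fun ω => (hC J T hT (Xo f ω) (hX ω) p).2.2.1)
      (fun ω => (hC J T hT (Xo f ω) (hX ω) p).2.2.2)
    have b2 : ∀ i ∈ Finset.range k, _ := fun i hi => W2_bound μ i (k - 1 - i) (D i) (c i)
      (hD0 i) (hc0 i) f hf T hT ε p (fun ω => hD i J T hT (Xo f ω) (hX ω) p)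
      (fun j => by
        have := hc i ((Finset.mem_range.1 hi).trans (Nat.lt_succ_self k)) J Ω μ
          (Function.update f j (fun _ => 0)) (hf.kill j) T hT ε hε hTε j
        simpa only [kil_Xo] using this)
    calc ∫ ω, fro (blk (Zk T (Xo f ω) (k + 1)) p p) ∂(Measure.pi fun _ : J => μ)
        ≤ ∫ ω, (2 * fro (∑ j, blk T p j * Xo f ω j * blk (Zk T (kil (Xo f ω) j) k) j p)
          + 2 * ((k : ℝ) * ∑ i ∈ Finset.range k, fro (∑ j, blk T p j * Xo f ω j *
            (blk (Zk T (kil (Xo f ω) j) i) j j * Xo f ω j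
              * blk (Zk T (Xo f ω) (k - 1 - i)) j p)))) ∂(Measure.pi fun _ : J => μ) := by
          refine integral_mono (((BMM.Zk T (fun l => hf.bmm l) (k + 1)).blk p p).fro_integrable _)
            (((iW1.fro_integrable _).const_mul _).add
              (((integrable_finsetSum _ fun i _ => (iW2 i).fro_integrable _).const_mul _).const_mul
                _)) fun ω => ?_
          simp only [hdec ω]
          refine (fro_add_le _ _).trans (add_le_add le_rfl ?_)
          have := fro_sum_le (Finset.range k) (fun i => ∑ j, blk T p j * Xo f ω j *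
            (blk (Zk T (kil (Xo f ω) j) i) j j * Xo f ω j
              * blk (Zk T (Xo f ω) (k - 1 - i)) j p))
          rw [Finset.card_range] at this
          linarith
      _ = 2 * ∫ ω, fro (∑ j, blk T p j * Xo f ω j * blk (Zk T (kil (Xo f ω) j) k) j p)
            ∂(Measure.pi fun _ : J => μ)
          + 2 * ((k : ℝ) * ∑ i ∈ Finset.range k, ∫ ω, fro (∑ j, blk T p j * Xo f ω j *
            (blk (Zk T (kil (Xo f ω) j) i) j j * Xo f ω j
              * blk (Zk T (Xo f ω) (k - 1 - i)) j p)) ∂(Measure.pi fun _ : J => μ)) := by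
          rw [integral_add ((iW1.fro_integrable _).const_mul _)
            (((integrable_finsetSum _ fun i _ => (iW2 i).fro_integrable _).const_mul _).const_mul
                _), integral_const_mul, integral_const_mul, integral_const_mul,
            integral_finsetSum _ fun i _ => (iW2 i).fro_integrable _]
      _ ≤ 2 * (2 * q ^ 3 * C * ε ^ 2)
          + 2 * ((k : ℝ) * ∑ i ∈ Finset.range k, q ^ 3 * D i * c i * ε ^ 2) := by
          gcongr with i hi
          exact b2 i hi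
      _ = _ := by
          rw [← Finset.sum_mul]; ring

theorem main : S_LF1 → S_LF := by
  intro H k Q _ _
  obtain ⟨c, hc0, hc⟩ := l2 H Q k
  refine ⟨(Fintype.card Q : ℝ) * Real.sqrt c, by positivity, ?_⟩
  intro J _ _ Ω _ μ _ f hm hb h0 T hT ε hε hTε p
  have hf : Fam μ f := ⟨hm, hb, h0⟩
  have hI := hc J Ω μ f hf T hT ε hε hTε p
  have hZ : BMM (fun ω : J → Ω => blk (Zk T (Xo f ω) k) p p) :=
    (BMM.Zk T (fun l => hf.bmm l) k).blk p p
  have hgoal : ∀ ω : J → Ω, e1 (fun x y : Q =>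
        (T * (Matrix.blockDiagonal (fun j => f j (ω j)) * T) ^ k) (x, p) (y, p))
      = e1 (blk (Zk T (Xo f ω) k) p p) := fun ω => rfl
  rw [integral_congr_ae (Filter.Eventually.of_forall hgoal)]
  set E : ℝ := ∫ ω, e1 (blk (Zk T (Xo f ω) k) p p) ∂(Measure.pi fun _ : J => μ) with hE
  set q : ℝ := (Fintype.card Q : ℝ) with hq
  have hq0 : 0 ≤ q := by positivity
  have key : E ^ 2 ≤ q ^ 2 * (c * ε ^ 2) := by
    have h1 : ∫ ω, (2 * E * e1 (blk (Zk T (Xo f ω) k) p p) - E ^ 2)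
        ∂(Measure.pi fun _ : J => μ) ≤ ∫ ω, q ^ 2 * fro (blk (Zk T (Xo f ω) k) p p)
        ∂(Measure.pi fun _ : J => μ) := by
      refine integral_mono (((hZ.e1_integrable _).const_mul _).sub (integrable_const _))
        ((hZ.fro_integrable _).const_mul _) fun ω => ?_
      have := e1_sq_le (blk (Zk T (Xo f ω) k) p p)
      nlinarith [sq_nonneg (E - e1 (blk (Zk T (Xo f ω) k) p p))]
    rw [integral_sub ((hZ.e1_integrable _).const_mul _) (integrable_const _),
      integral_const_mul, integral_const_mul] at h1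
    have h2 : ∫ _ω : J → Ω, E ^ 2 ∂(Measure.pi fun _ : J => μ) = E ^ 2 := by simp
    rw [h2, ← hE] at h1
    have h3 : q ^ 2 * ∫ ω, fro (blk (Zk T (Xo f ω) k) p p) ∂(Measure.pi fun _ : J => μ)
        ≤ q ^ 2 * (c * ε ^ 2) := mul_le_mul_of_nonneg_left hI (by positivity)
    nlinarith
  have h4 : q ^ 2 * (c * ε ^ 2) = (q * Real.sqrt c * ε) ^ 2 := by
    rw [mul_pow, mul_pow, Real.sq_sqrt hc0]; ring
  rw [h4] at key
  exact (abs_le_of_sq_le_sq' key (by positivity)).2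

end Pool.Agent.W15.GKLf2
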