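import Pool.Agent.W792.GK.Stm

/-!
GK-LF2, part a: bounded measurable functions, integrating out one coordinate, Frobenius norms.
-/

namespace Pool.Agent.W15.GKLf2

open MeasureTheory Pool.Agent.W792.GK
open scoped Matrix.Norms.Frobenius

/-! ### Bounded measurable functions -/

/-- Bounded measurable complex valued functions. -/
def BM {Ω : Type} [MeasurableSpace Ω] (F : Ω → ℂ) : Prop :=
  Measurable F ∧ ∃ C : ℝ, 0 ≤ C ∧ ∀ w, ‖F w‖ ≤ C

variable {Ω : Type} [MeasurableSpace Ω]

theorem BM.const (c : ℂ) : BM (fun _ : Ω => c) :=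
  ⟨measurable_const, ‖c‖, norm_nonneg _, fun _ => le_rfl⟩

theorem BM.add {F G : Ω → ℂ} (hF : BM F) (hG : BM G) : BM (fun w => F w + G w) := by
  obtain ⟨hm, C, hC, hb⟩ := hF
  obtain ⟨hm', C', hC', hb'⟩ := hG
  exact ⟨hm.add hm', C + C', by positivity,
    fun w => (norm_add_le _ _).trans (add_le_add (hb w) (hb' w))⟩

theorem BM.neg {F : Ω → ℂ} (hF : BM F) : BM (fun w => - F w) := by
  obtain ⟨hm, C, hC, hb⟩ := hF
  exact ⟨hm.neg, C, hC, fun w => by rw [norm_neg]; exact hb w⟩

theorem BM.sub {F G : Ω → ℂ} (hF : BM F) (hG : BM G) : BM (fun w => F w - G w) := by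
  simp only [sub_eq_add_neg]
  exact hF.add hG.neg

theorem BM.mul {F G : Ω → ℂ} (hF : BM F) (hG : BM G) : BM (fun w => F w * G w) := by
  obtain ⟨hm, C, hC, hb⟩ := hF
  obtain ⟨hm', C', hC', hb'⟩ := hG
  refine ⟨hm.mul hm', C * C', by positivity, fun w => ?_⟩
  rw [norm_mul]
  exact mul_le_mul (hb w) (hb' w) (norm_nonneg _) hC

theorem BM.sum {ι : Type} (s : Finset ι) {F : ι → Ω → ℂ} (hF : ∀ i ∈ s, BM (F i)) :
    BM (fun w => ∑ i ∈ s, F i w) := by
  classical
  induction s using Finset.induction_on with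
  | empty => simpa using BM.const (Ω := Ω) 0
  | insert a s ha ih =>
    simp only [Finset.sum_insert ha]
    exact (hF a (Finset.mem_insert_self _ _)).add
      (ih fun i hi => hF i (Finset.mem_insert_of_mem hi))

theorem BM.conj {F : Ω → ℂ} (hF : BM F) : BM (fun w => (starRingEnd ℂ) (F w)) := by
  obtain ⟨hm, C, hC, hb⟩ := hF
  refine ⟨Complex.continuous_conj.measurable.comp hm, C, hC, fun w => ?_⟩
  rw [RCLike.norm_conj]; exact hb w

theorem BM.integrable {F : Ω → ℂ} (hF : BM F) (μ : Measure Ω) [IsProbabilityMeasure μ] :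
    Integrable F μ := by
  obtain ⟨hm, C, hC, hb⟩ := hF
  exact Integrable.of_bound hm.aestronglyMeasurable C (Filter.Eventually.of_forall hb)

theorem BM.norm_sq_integrable {F : Ω → ℂ} (hF : BM F) (μ : Measure Ω) [IsProbabilityMeasure μ] :
    Integrable (fun w => ‖F w‖ ^ 2) μ := by
  obtain ⟨hm, C, hC, hb⟩ := hF
  refine Integrable.of_bound ((hm.norm.pow_const 2).aestronglyMeasurable) (C ^ 2)
    (Filter.Eventually.of_forall fun w => ?_)
  rw [Real.norm_eq_abs, abs_of_nonneg (by positivity)]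
  exact pow_le_pow_left₀ (norm_nonneg _) (hb w) 2

theorem BM.norm_integrable {F : Ω → ℂ} (hF : BM F) (μ : Measure Ω) [IsProbabilityMeasure μ] :
    Integrable (fun w => ‖F w‖) μ := (hF.integrable μ).norm

/-- Matrices with bounded measurable entries. -/
def BMM {m n : Type} (F : Ω → Matrix m n ℂ) : Prop := ∀ i j, BM (fun w => F w i j)

theorem BMM.mul {l m n : Type} [Fintype m] {F : Ω → Matrix l m ℂ} {G : Ω → Matrix m n ℂ}
    (hF : BMM F) (hG : BMM G) : BMM (fun w => F w * G w) := by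
  intro i j
  simp only [Matrix.mul_apply]
  exact BM.sum _ fun k _ => (hF i k).mul (hG k j)

theorem BMM.const {m n : Type} (A : Matrix m n ℂ) : BMM (fun _ : Ω => A) :=
  fun _ _ => BM.const _

theorem BMM.pow {m : Type} [Fintype m] [DecidableEq m] {F : Ω → Matrix m m ℂ} (hF : BMM F)
    (k : ℕ) : BMM (fun w => F w ^ k) := by
  induction k with
  | zero => simpa using BMM.const (Ω := Ω) (1 : Matrix m m ℂ)
  | succ k ih =>
    simp only [pow_succ]
    exact ih.mul hF

theorem BMM.sub {m n : Type} {F G : Ω → Matrix m n ℂ}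
    (hF : BMM F) (hG : BMM G) : BMM (fun w => F w - G w) := by
  intro i j
  simp only [Matrix.sub_apply]
  exact (hF i j).sub (hG i j)

theorem BMM.sum {ι m n : Type} (s : Finset ι) {F : ι → Ω → Matrix m n ℂ}
    (hF : ∀ i ∈ s, BMM (F i)) : BMM (fun w => ∑ i ∈ s, F i w) := by
  intro i j
  simp only [Matrix.sum_apply]
  exact BM.sum _ fun k hk => hF k hk i j

theorem BMM.fro_integrable {m : Type} [Fintype m] {F : Ω → Matrix m m ℂ} (hF : BMM F)
    (μ : Measure Ω) [IsProbabilityMeasure μ] : Integrable (fun w => fro (F w)) μ := by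
  unfold fro
  exact integrable_finsetSum _ fun i _ => integrable_finsetSum _ fun j _ =>
    (hF i j).norm_sq_integrable μ

theorem BMM.e1_integrable {m : Type} [Fintype m] {F : Ω → Matrix m m ℂ} (hF : BMM F)
    (μ : Measure Ω) [IsProbabilityMeasure μ] : Integrable (fun w => e1 (F w)) μ := by
  unfold e1
  exact integrable_finsetSum _ fun i _ => integrable_finsetSum _ fun j _ =>
    (hF i j).norm_integrable μ

theorem BMM.blockDiagonal {Q J : Type} [Fintype Q] [DecidableEq Q] [Fintype J] [DecidableEq J]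
    {X : Ω → J → Matrix Q Q ℂ} (hX : ∀ j, BMM (fun w => X w j)) :
    BMM (fun w => Matrix.blockDiagonal (X w)) := by
  rintro ⟨x, i⟩ ⟨y, j⟩
  simp only [Matrix.blockDiagonal_apply]
  by_cases h : i = j
  · subst h
    simpa using hX i x y
  · simpa [h] using BM.const (Ω := Ω) 0

theorem BMM.Zk {Q J : Type} [Fintype Q] [DecidableEq Q] [Fintype J] [DecidableEq J]
    (T : Matrix (Q × J) (Q × J) ℂ) {X : Ω → J → Matrix Q Q ℂ} (hX : ∀ j, BMM (fun w => X w j))
    (k : ℕ) : BMM (fun w => Pool.Agent.W792.GK.Zk T (X w) k) := by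
  unfold Pool.Agent.W792.GK.Zk
  exact (BMM.const T).mul (((BMM.blockDiagonal hX).mul (BMM.const T)).pow k)

theorem BMM.blk {Q J : Type} {Z : Ω → Matrix (Q × J) (Q × J) ℂ} (hZ : BMM Z) (i j : J) :
    BMM (fun w => Pool.Agent.W792.GK.blk (Z w) i j) := fun x y => hZ (x, i) (y, j)

theorem BMM.comp {Ω' : Type} [MeasurableSpace Ω'] {m n : Type} {F : Ω → Matrix m n ℂ}
    (hF : BMM F) {g : Ω' → Ω} (hg : Measurable g) : BMM (fun w => F (g w)) := by
  intro i j
  obtain ⟨hm, C, hC, hb⟩ := hF i j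
  exact ⟨hm.comp hg, C, hC, fun w => hb _⟩

/-! ### Integrating out one coordinate -/

section upd

variable {J : Type} [Fintype J] [DecidableEq J] (μ : Measure Ω) [IsProbabilityMeasure μ]

theorem mp_update (i : J) : MeasurePreserving
    (fun q : (J → Ω) × Ω => Function.update q.1 i q.2)
    ((Measure.pi fun _ : J => μ).prod μ) (Measure.pi fun _ : J => μ) := by
  have hmeas : Measurable (fun q : (J → Ω) × Ω => Function.update q.1 i q.2) := by
    refine measurable_pi_iff.2 fun j => ?_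
    by_cases h : j = i
    · subst h
      simpa using measurable_snd
    · simp only [Function.update_apply, h, if_false]
      exact (measurable_pi_apply j).comp measurable_fst
  refine ⟨hmeas, ?_⟩
  symm
  refine Measure.pi_eq fun s hs => ?_
  rw [Measure.map_apply hmeas (MeasurableSet.univ_pi hs)]
  have hpre : (fun q : (J → Ω) × Ω => Function.update q.1 i q.2) ⁻¹' (Set.univ.pi s)
      = (Set.univ.pi (Function.update s i Set.univ)) ×ˢ (s i) := by
    ext ⟨ω, a⟩
    simp only [Set.mem_preimage, Set.mem_univ_pi, Set.mem_prod]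
    constructor
    · intro h
      refine ⟨fun j => ?_, ?_⟩
      · by_cases hj : j = i
        · subst hj; simp
        · have := h j
          simpa [Function.update_apply, hj] using this
      · have := h i
        simpa using this
    · rintro ⟨h1, h2⟩ j
      by_cases hj : j = i
      · subst hj; simpa using h2
      · have := h1 j
        simpa [Function.update_apply, hj] using this
  rw [hpre, Measure.prod_prod, Measure.pi_pi]
  rw [← Finset.mul_prod_erase Finset.univ (fun j => μ (s j)) (Finset.mem_univ i)]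
  rw [← Finset.mul_prod_erase Finset.univ
    (fun j => μ (Function.update s i Set.univ j)) (Finset.mem_univ i)]
  have : ∏ x ∈ Finset.univ.erase i, μ (Function.update s i Set.univ x)
      = ∏ x ∈ Finset.univ.erase i, μ (s x) := by
    refine Finset.prod_congr rfl fun x hx => ?_
    rw [Function.update_of_ne (Finset.ne_of_mem_erase hx)]
  rw [this]
  simp [mul_comm]

theorem int_update {i : J} {F : (J → Ω) → ℂ} (hF : BM F) :
    ∫ ω, F ω ∂(Measure.pi fun _ : J => μ)
      = ∫ ω, ∫ a, F (Function.update ω i a) ∂μ ∂(Measure.pi fun _ : J => μ) := by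
  have h := mp_update μ i (J := J)
  have hb : BM (fun q : (J → Ω) × Ω => F (Function.update q.1 i q.2)) := by
    obtain ⟨hm, C, hC, hb⟩ := hF
    exact ⟨hm.comp h.measurable, C, hC, fun w => hb _⟩
  have e := integral_prod (fun q : (J → Ω) × Ω => F (Function.update q.1 i q.2))
    (hb.integrable ((Measure.pi fun _ : J => μ).prod μ))
  refine Eq.trans ?_ e
  conv_lhs => rw [← h.map_eq]
  rw [integral_map h.measurable.aemeasurable hF.1.aestronglyMeasurable]

/-- Vanishing: a centred function of one coordinate times a function not depending on it. -/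
theorem van (i : J) (g : Ω → ℂ) (hg : BM g) (h0 : ∫ w, g w ∂μ = 0) (Φ : (J → Ω) → ℂ)
    (hΦ : BM Φ) (hind : ∀ ω a, Φ (Function.update ω i a) = Φ ω) :
    ∫ ω, g (ω i) * Φ ω ∂(Measure.pi fun _ : J => μ) = 0 := by
  have hgi : BM (fun ω : J → Ω => g (ω i)) := by
    obtain ⟨hm, C, hC, hb⟩ := hg
    exact ⟨hm.comp (measurable_pi_apply i), C, hC, fun w => hb _⟩
  rw [int_update μ (i := i) (hgi.mul hΦ)]
  have : ∀ ω : J → Ω, ∫ a, g (Function.update ω i a i) * Φ (Function.update ω i a) ∂μ = 0 := by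
    intro ω
    simp only [Function.update_self, hind]
    rw [integral_mul_const, h0, zero_mul]
  rw [integral_congr_ae (Filter.Eventually.of_forall this)]
  simp

end upd

/-! ### Frobenius norm -/

theorem fro_eq {m : Type} [Fintype m] (A : Matrix m m ℂ) : fro A = ‖A‖ ^ 2 := by
  rw [Matrix.frobenius_norm_def, fro]
  rw [← Real.sqrt_eq_rpow, Real.sq_sqrt]
  · simp
  · positivity

theorem fro_nonneg {m : Type} [Fintype m] (A : Matrix m m ℂ) : 0 ≤ fro A := by
  rw [fro_eq]; positivity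

theorem fro_mul_le {m : Type} [Fintype m] (A B : Matrix m m ℂ) :
    fro (A * B) ≤ fro A * fro B := by
  rw [fro_eq, fro_eq, fro_eq, ← mul_pow]
  exact pow_le_pow_left₀ (norm_nonneg _) (Matrix.frobenius_norm_mul A B) 2

/-- Entries and rows of a contraction. -/
theorem row_le {n : Type} [Fintype n] [DecidableEq n] {A : Matrix n n ℂ} (hA : OpB A 1) (i : n) :
    ∑ j, ‖A i j‖ ^ 2 ≤ 1 := by
  set S : ℝ := ∑ j, ‖A i j‖ ^ 2 with hS
  have hS0 : 0 ≤ S := by positivity
  have h := hA (fun j => (starRingEnd ℂ) (A i j))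
  have h1 : (A.mulVec (fun j => (starRingEnd ℂ) (A i j))) i = (S : ℂ) := by
    simp only [Matrix.mulVec, dotProduct, hS]
    push_cast
    refine Finset.sum_congr rfl fun j _ => ?_
    rw [Complex.mul_conj, Complex.normSq_eq_norm_sq]
    push_cast; rfl
  have h2 : ‖(A.mulVec (fun j => (starRingEnd ℂ) (A i j))) i‖ ^ 2 ≤
      ∑ k, ‖(A.mulVec (fun j => (starRingEnd ℂ) (A i j))) k‖ ^ 2 :=
    Finset.single_le_sum (f := fun k => ‖(A.mulVec (fun j => (starRingEnd ℂ) (A i j))) k‖ ^ 2)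
      (fun k _ => by positivity) (Finset.mem_univ i)
  rw [h1] at h2
  have h3 : ∑ j, ‖(starRingEnd ℂ) (A i j)‖ ^ 2 = S := by
    simp [hS]
  rw [h3] at h
  have h4 : ‖(S : ℂ)‖ ^ 2 = S ^ 2 := by simp
  rw [h4] at h2
  have h5 : S ^ 2 ≤ 1 ^ 2 * S := h2.trans h
  by_contra hcon
  push Not at hcon
  nlinarith

theorem entry_le {n : Type} [Fintype n] [DecidableEq n] {A : Matrix n n ℂ} (hA : OpB A 1)
    (i j : n) : ‖A i j‖ ≤ 1 := by
  have h := row_le hA i
  have h2 : ‖A i j‖ ^ 2 ≤ ∑ k, ‖A i k‖ ^ 2 :=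
    Finset.single_le_sum (f := fun k => ‖A i k‖ ^ 2) (fun k _ => by positivity) (Finset.mem_univ j)
  have h3 : ‖A i j‖ ^ 2 ≤ 1 := h2.trans h
  exact (sq_le_one_iff₀ (norm_nonneg _)).1 h3

theorem fro_contr {n : Type} [Fintype n] [DecidableEq n] {A : Matrix n n ℂ} (hA : OpB A 1) :
    fro A ≤ Fintype.card n := by
  unfold fro
  calc ∑ x, ∑ y, ‖A x y‖ ^ 2 ≤ ∑ _x : n, (1 : ℝ) := Finset.sum_le_sum fun x _ => row_le hA x
    _ = Fintype.card n := by simp

theorem sum_fro_row {Q J : Type} [Fintype Q] [DecidableEq Q] [Fintype J] [DecidableEq J]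
    {T : Matrix (Q × J) (Q × J) ℂ} (hT : OpB T 1) (p : J) :
    ∑ j, fro (blk T p j) ≤ Fintype.card Q := by
  have : ∑ j, fro (blk T p j) = ∑ x, ∑ q : Q × J, ‖T (x, p) q‖ ^ 2 := by
    simp only [fro, blk]
    rw [Finset.sum_comm]
    refine Finset.sum_congr rfl fun x _ => ?_
    rw [Fintype.sum_prod_type_right]
  rw [this]
  calc ∑ x, ∑ q : Q × J, ‖T (x, p) q‖ ^ 2 ≤ ∑ _x : Q, (1 : ℝ) :=
        Finset.sum_le_sum fun x _ => row_le hT (x, p)
    _ = Fintype.card Q := by simp

theorem fro_small {Q J : Type} [Fintype Q]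
    {T : Matrix (Q × J) (Q × J) ℂ} {ε : ℝ} (hε : ∀ i j x y, ‖T (x, i) (y, j)‖ ≤ ε)
    (p j : J) : fro (blk T p j) ≤ (Fintype.card Q : ℝ) ^ 2 * ε ^ 2 := by
  unfold fro blk
  calc ∑ x, ∑ y, ‖T (x, p) (y, j)‖ ^ 2 ≤ ∑ _x : Q, ∑ _y : Q, ε ^ 2 :=
        Finset.sum_le_sum fun x _ => Finset.sum_le_sum fun y _ =>
          pow_le_pow_left₀ (norm_nonneg _) (hε p j x y) 2
    _ = (Fintype.card Q : ℝ) ^ 2 * ε ^ 2 := by
        simp [Finset.sum_const]; ring

theorem e1_sq_le {Q : Type} [Fintype Q] (A : Matrix Q Q ℂ) :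
    (e1 A) ^ 2 ≤ (Fintype.card Q : ℝ) ^ 2 * fro A := by
  unfold e1 fro
  have h1 : (∑ i, ∑ j, ‖A i j‖) = ∑ q : Q × Q, ‖A q.1 q.2‖ := by
    rw [Fintype.sum_prod_type]
  have h2 : (∑ i, ∑ j, ‖A i j‖ ^ 2) = ∑ q : Q × Q, ‖A q.1 q.2‖ ^ 2 := by
    rw [Fintype.sum_prod_type]
  rw [h1, h2]
  have := sq_sum_le_card_mul_sum_sq (s := (Finset.univ : Finset (Q × Q)))
    (f := fun q => ‖A q.1 q.2‖)
  simpa [Fintype.card_prod, sq] using this

end Pool.Agent.W15.GKLf2
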